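import Mathlib
import Pool.Agent.X325.EC.Cnt

/-!
# Varieties connected by elliptic curves of countably many isomorphism classes

Let `X` be a smooth connected quasi-projective complex variety of any dimension. This file proves the
STRONG form (virtually abelian) of the conjecture on the fundamental groups of elliptically connected
manifolds, for chains of algebraic curves in which the elliptic curves belong to countably many
isomorphism classes, for example for all the elliptic curves which are defined over the algebraic
numbers, or for all the elliptic curves with complex multiplication.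

Fix countably many elliptic curves `E_k ⊆ ℙ²`, `Y² Z = (X - e₀ Z) (X - e₁ Z) (X - e₂ Z)`, and
countably many path connected affine algebraic sets `Y k` (test varieties, possibly none). Write
`x ≈ x'` for two points of `X` if

* both lie in the image of a regular map `E_k → X`; or
* both lie in the Zariski closure of the image of a regular map `(ℂ*)^m → X` (so that the images of
  the regular maps of `ℙ¹`, `ℂ` and `ℂ*` are included); or
* both lie in the Zariski closure of `f(ℂ)`, where `f : ℂ → X` is an entire curve whose homogeneous
  coordinates are finite sums of functions `P(z) exp(h(z))`, `P` a polynomial, `h` any entire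
  function, without common zeros in the sense that the functions `q_j(f) f_l` generate the unit
  ideal of the ring of all these sums; or
* both lie in the image of a regular map `Y k → X`.

Theorem. Suppose that for some point `x₀` the set of the points which are joined to `x₀` by a chain
`x₀ ≈ x₁ ≈ … ≈ x` is not contained in a countable union of proper Zariski closed subsets of `X` (for
example that it is `X`). Let `C` be a class of groups which is closed under subgroups, quotients and
finite products and contains the commutative groups. If the images of the groups `π₁(Y k)` in
`π₁(X)` under all regular maps `Y k → X` belong to `C`, then `π₁(X)` has a subgroup of finite index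
which belongs to `C`. In particular, if there are no test varieties, then `π₁(X)` has an abelian
subgroup of finite index.

The fundamental group of an elliptic curve is shown to be commutative by means of the group law; the
regular maps `E_k → X` are parametrised by pairs of regular maps on the two affine charts of `E_k`
which agree where both are defined.
-/

set_option autoImplicit false

open Topology Set

namespace Pool.Agent.Results.MP_6f2a8f_ag.CountablyManyModuli

open Pool.Agent.X325.HS Pool.Agent.X325.EC Pool.Agent.Y193.CS Pool.Agent.Y193.FG

/-- Smooth quasi-projective varieties connected by chains of elliptic curves of countably many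
isomorphism classes, of closures of entire curves and of images of tori and of test varieties. -/
theorem result {n : ℕ} {ι κ : Type} [Fintype κ]
    -- the smooth connected variety `X = {p i = 0 for all i, q j ≠ 0 for some j}`
    (p : ι → MvPolynomial (Fin (n + 1)) ℂ) (q : κ → MvPolynomial (Fin (n + 1)) ℂ)
    (hp : ∀ i, ∃ d, (p i).IsHomogeneous d) (hq : ∀ j, ∃ d, (q j).IsHomogeneous d)
    (hs : IsSmooth (QP p q)) (hc : IsConnected (QP p q))
    -- the elliptic curves
    {K : Type} [Countable K] {e : K → Fin 3 → ℂ} (he : ∀ k, Function.Injective (e k))
    {x₀ : CP n} (hx₀ : x₀ ∈ QP p q) :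
    -- the general theorem, with test varieties
    (∀ {K₀ : Type} [Countable K₀] {r₀ : K₀ → ℕ} {Y : ∀ k, Set (Fin (r₀ k) → ℂ)},
      (∀ k, IsAlgebraic' (Y k)) → (∀ k, IsPathConnected (Y k)) →
      ¬ IsThin (QP p q) {x | Relation.ReflTransGen
        (fun x x' => MixedLinked p q Y x x' ∨ ∃ k, EllLinkedBy (e k) (QP p q) x x') x₀ x} →
      ∀ C : ∀ (G : Type) [Group G], Prop, IsClosedClass C →
        (∀ (G : Type) [Group G], (∀ a b : G, a * b = b * a) → C G) → ImagesIn (QP p q) Y C →
        ∀ x : QP p q, Virtually C (FundamentalGroup (QP p q) x)) ∧
    -- the fundamental group is virtually abelian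
    (¬ IsThin (QP p q) {x | Relation.ReflTransGen
        (fun x x' => (∃ k, EllLinkedBy (e k) (QP p q) x x') ∨ TorusLinked (QP p q) x x' ∨
          EntLinked p q x x') x₀ x} →
      ∀ x : QP p q, VirtuallyAbelian (FundamentalGroup (QP p q) x)) := by
  refine ⟨fun hYa hYc hthin C hC hab hY x => main_cnt
    ⟨C, hC.triv, fun f => hC.sub _ _ f, fun f => hC.quot _ _ f, hC.prod _ _⟩ hab hp hq hs hc
    hYa hYc hY he hx₀ hthin x, fun hthin x => ?_⟩
  have hthin2 : ¬ IsThin (QP p q) {x | Relation.ReflTransGen
      (fun x x' => MixedLinked p q (K := Empty) (r := fun k => k.elim) (fun k => k.elim) x x' ∨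
        ∃ k, EllLinkedBy (e k) (QP p q) x x') x₀ x} := by
    rintro ⟨G, h1, h2, h3⟩
    refine hthin ⟨G, h1, h2, fun v hv hv' => h3 v hv ?_⟩
    refine Relation.ReflTransGen.mono ?_ _ _ hv'
    rintro x x' (h | h | h)
    · exact Or.inr h
    · exact Or.inl (Or.inr (Or.inl h))
    · exact Or.inl (Or.inl h)
  obtain ⟨H, h1, h2⟩ := main_cnt abel (fun G _ h => h) hp hq hs hc
    (fun k => k.elim) (fun k => k.elim) (fun k => k.elim) he hx₀ hthin2 x
  exact ⟨H, h1, fun a ha b hb => congrArg Subtype.val (h2 ⟨a, ha⟩ ⟨b, hb⟩)⟩

end Pool.Agent.Results.MP_6f2a8f_ag.CountablyManyModuli
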