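import Pool.Agent.X316.ET.Atlas

/-!
# Fundamental groups of elliptically connected quasi-projective varieties

Let `X` be a smooth connected quasi-projective complex variety of any dimension. Two points of `X`
are linked if they belong to the image of a connected space `S` with an atlas of étale charts (such
as a smooth connected variety of any dimension) under a map to `X` which is regular on the charts,
such that the image of `π₁(S)` in `π₁(X)` is polycyclic, or to the image of an elliptic curve under
a regular map to `X`, or to the Zariski closure of the image of a regular map `(ℂ*)^k → X`
(for example, to the image of a regular map of `ℙ¹`, `ℂ` or `ℂ*`), or to the Zariski closure of an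
entire curve `ℂ → X` with homogeneous coordinates `∑ P(z) exp(h(z))`, `P` polynomial, `h` entire,
which satisfy a condition of Bezout type. If a point of `X` is joined by chains to a set of points
of `X` which is not contained in a countable union of proper Zariski closed subsets of `X`, then
the fundamental group of `X` is virtually polycyclic.
-/

set_option autoImplicit false

namespace Pool.Agent.Results.MP_6f2a8f_ag.EllipticallyConnected

open Pool.Agent.Y193.FG (CP QP IsSmooth)
open Pool.Agent.Y193.CS (IsThin TorusLinked)
open Pool.Agent.X325.HS (EntLinked)
open Pool.Agent.X325.EC (Poly)
open Pool.Agent.X316.ET (AtlasLinked)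
open Pool.Agent.X316.EC (EllLinked)

/-- Let `X = {p i = 0 for all i, q j ≠ 0 for some j}` be smooth and connected. If the points which
are joined to `x₀` by chains of images of spaces with an atlas of étale charts, with polycyclic
image of the fundamental group, images of elliptic curves, closures of images of tori `(ℂ*)^k` and
closures of entire curves as above are not contained in a countable union of proper Zariski closed
subsets of `X`, then `π₁(X)` has a subgroup of finite index which is solvable and all of whose
subgroups are finitely generated (that is, a polycyclic subgroup of finite index). -/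
theorem result {n : ℕ} {ι κ : Type} [Fintype κ]
    -- the smooth connected variety `X = {p i = 0 for all i, q j ≠ 0 for some j}`
    (p : ι → MvPolynomial (Fin (n + 1)) ℂ) (q : κ → MvPolynomial (Fin (n + 1)) ℂ)
    (hp : ∀ i, ∃ d, (p i).IsHomogeneous d) (hq : ∀ j, ∃ d, (q j).IsHomogeneous d)
    (hs : IsSmooth (QP p q)) (hc : IsConnected (QP p q))
    -- chains
    {x₀ : CP n} (hx₀ : x₀ ∈ QP p q)
    (h : ¬ IsThin (QP p q) {x | Relation.ReflTransGen
      (fun x x' => AtlasLinked (QP p q) Poly x x' ∨ EllLinked (QP p q) x x' ∨
        TorusLinked (QP p q) x x' ∨ EntLinked p q x x') x₀ x})
    (x : QP p q) :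
    ∃ H : Subgroup (FundamentalGroup (QP p q) x), H.FiniteIndex ∧ Group.IsSolvable H ∧
      ∀ K : Subgroup H, K.FG := by
  obtain ⟨H, h1, h2, h3⟩ := Pool.Agent.X316.ET.main_atlas_ell hp hq hs hc hx₀ h x
  exact ⟨H, h1, h2, h3⟩

end Pool.Agent.Results.MP_6f2a8f_ag.EllipticallyConnected
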