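import Pool.Agent.X316.ZP.Int

set_option autoImplicit false

open MvPolynomial

namespace Pool.Agent.Results.MP_6f2a8f_ag.IntegralZetaCurves

open Pool.Agent.X316.ZG (JointlyUniversal)
open Pool.Agent.X316.ZP
open Pool.Agent.Y193.FG (CP QP IsSmooth)
open Pool.Agent.Y193.CS (IsThin)

/-- Let `X = {p i = 0 for all i, q j ≠ 0 for some j}` be smooth and connected. Suppose that the
points of `X` which are joined to `x₀` by chains of Zariski closures of curves whose coordinates are
integral over the ring generated by the derivatives of the zeta function (or of a jointly universal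
family) are not contained in a countable union of proper Zariski closed subsets of `X`. Then the
fundamental group of `X` is finite. -/
theorem result :
    (∀ (n : ℕ) (ι κ : Type) [Fintype κ] (p : ι → MvPolynomial (Fin (n + 1)) ℂ)
      (q : κ → MvPolynomial (Fin (n + 1)) ℂ),
      (∀ i, ∃ d, (p i).IsHomogeneous d) → (∀ j, ∃ d, (q j).IsHomogeneous d) →
      IsSmooth (QP p q) → IsConnected (QP p q) → ∀ x₀ ∈ QP p q,
      ¬ IsThin (QP p q) {x : CP n | Relation.ReflTransGen (ILinked p q) x₀ x} →
      ∀ x : QP p q, Finite (FundamentalGroup (QP p q) x)) ∧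
    JointlyUniversal (fun _ : Unit => riemannZeta) :=
  ⟨fun _ _ _ _ _ _ hp hq hs hc _ hx₀ h x => main_int hp hq hs hc hx₀ h x,
    Pool.Agent.X316.ZG.zeta_universal⟩

end Pool.Agent.Results.MP_6f2a8f_ag.IntegralZetaCurves
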